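import Mathlib
import Pool.Agent.R232.BrokenLin

/-!
# MP_8df504_an, Q1: a broken-linear map and a set for which the averages diverge

The map is the homeomorphism `T x = max (x / 2) (2 x - 1)` of `[0,1]`, with vertices
`(0,0), (2/3,1/3), (1,1)`. Every orbit starting in `(0,1)` ends up in `(0,2/3]`, where `T` halves.
The set is the union of the dyadic blocks `(2^{-k-1}, 2^{-k}]` with `⌊log₂ k⌋` even, and the set of
these `k` has no density.
-/

open MeasureTheory Set Filter Topology
open Pool.Agent.R232.BrokenLin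

namespace Pool.Agent.Results.MP_8df504_an.DivergentAverages

/-- **Negative answer to Q1 of MP_8df504_an.** There are a broken-linear homeomorphism `T` of `[0,1]`
and a Borel set `R ⊆ [0,1]` such that `A_N(R,p)` diverges for every `p ∈ (0,1)`. -/
theorem result :
    ∃ (T : ℝ → ℝ) (R : Set ℝ), BrokenLinear T ∧ Set.BijOn T (Set.Icc 0 1) (Set.Icc 0 1) ∧
      R ⊆ Set.Icc 0 1 ∧ MeasurableSet R ∧
        ∀ p ∈ Set.Ioo (0:ℝ) 1, ¬ ∃ l : ℝ, Tendsto (fun N : ℕ => avg T R p N) atTop (𝓝 l) := by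
  refine ⟨T, R₁, T_broken, T_bij, fun x hx => ⟨hx.1.1.le, hx.1.2⟩, measurable_R₁, ?_⟩
  rintro p ⟨h0, h1⟩ ⟨l, hl⟩
  exact q1 h0 h1 l hl

end Pool.Agent.Results.MP_8df504_an.DivergentAverages
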