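import Mathlib
import Pool.Agent.R232.BrokenLin

/-!
# MP_8df504_an, Q2: a broken-linear map and a set for which `L(R,·)` takes infinitely many values

The map is the homeomorphism `T x = max (x / 2) (2 x - 1)` of `[0,1]`, with vertices
`(0,0), (2/3,1/3), (1,1)`. Every orbit starting in `(0,1)` ends up in `(0,2/3]`, where `T` halves.
Write `x ∈ (0,1]` as `x = 2^{-k} u` with `u ∈ (1/2,1]`, put `t = ⌊1 / (2 u - 1)⌋`, and let `R` be the
set of all `x` for which `t` divides `k`. An orbit in `(0,2/3]` has constant `t` and visits `R` with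
frequency `1 / t`.
-/

open MeasureTheory Set Filter Topology
open Pool.Agent.R232.BrokenLin

namespace Pool.Agent.Results.MP_8df504_an.InfinitelyManyValues

/-- **Negative answer to Q2 of MP_8df504_an.** There are a broken-linear homeomorphism `T` of `[0,1]`
and a Borel set `R ⊆ [0,1]` such that `L(p) = lim A_N(R,p)` exists for every `p ∈ [0,1]`, takes each
value `1/d` (`d = 1, 2, ...`) on a set of positive Lebesgue measure, and takes infinitely many values
on every subset of `[0,1]` of full measure. -/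
theorem result :
    ∃ (T : ℝ → ℝ) (R : Set ℝ), BrokenLinear T ∧ Set.BijOn T (Set.Icc 0 1) (Set.Icc 0 1) ∧
      R ⊆ Set.Icc 0 1 ∧ MeasurableSet R ∧
        ∃ L : ℝ → ℝ,
          (∀ p ∈ Set.Icc (0:ℝ) 1, Tendsto (fun N : ℕ => avg T R p N) atTop (𝓝 (L p))) ∧
          (∀ d : ℕ, 0 < d → 0 < volume {p : ℝ | p ∈ Set.Icc (0:ℝ) 1 ∧ L p = 1 / d}) ∧
          ∀ F ⊆ Set.Icc (0:ℝ) 1, volume (Set.Icc (0:ℝ) 1 \ F) = 0 → (L '' F).Infinite := by
  classical
  refine ⟨T, R₂, T_broken, T_bij, fun x hx => ⟨hx.1.1.le, hx.1.2⟩, measurable_R₂, ?_⟩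
  let L : ℝ → ℝ := fun p => if h : p ∈ Icc (0:ℝ) 1 then (q2_ex h).choose else 0
  have hL : ∀ p ∈ Icc (0:ℝ) 1, Tendsto (avg T R₂ p) atTop (𝓝 (L p)) := by
    intro p hp
    have : L p = (q2_ex hp).choose := dif_pos hp
    rw [this]
    exact (q2_ex hp).choose_spec
  have hpos : ∀ d : ℕ, 0 < d → 0 < volume {p : ℝ | p ∈ Set.Icc (0:ℝ) 1 ∧ L p = 1 / d} := by
    intro d hd
    have hdr : (1:ℝ) ≤ d := by exact_mod_cast hd
    have e1 : 1 / (2 * (d:ℝ)) ≤ 1 / 2 := by
      apply one_div_le_one_div_of_le <;> linarith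
    have e2 : 0 < 1 / (2 * ((d:ℝ) + 1)) := by positivity
    have e3 : 1 / (2 * ((d:ℝ) + 1)) < 1 / (2 * (d:ℝ)) := by
      apply one_div_lt_one_div_of_lt <;> linarith
    have hsub : Ioc ((1 / 2 + 1 / (2 * ((d:ℝ) + 1))) / 2) ((1 / 2 + 1 / (2 * (d:ℝ))) / 2) ⊆
        {p : ℝ | p ∈ Set.Icc (0:ℝ) 1 ∧ L p = 1 / d} := by
      intro p hp
      have hp0 : 0 < p := by linarith [hp.1]
      have hp1 : p ≤ 1 / 2 := by linarith [hp.2]
      have hmem : p ∈ Icc (0:ℝ) 1 := ⟨hp0.le, by linarith⟩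
      refine ⟨hmem, ?_⟩
      have h1 := hL p hmem
      have h2 : Tendsto (avg T R₂ p) atTop (𝓝 (1 / (typ p : ℝ))) :=
        q2_lim (n0 := 0) hp0 (by linarith)
          (fun i => by rw [zero_add]; exact iter_low hp0.le (by linarith) i)
      have h3 : typ p = d := by
        have h4 : typ (2 * p) = d := typ_eq hd (by linarith [hp.1]) (by linarith [hp.2])
        have h5 : p = (2 * p) / 2 ^ 1 := by ring
        rw [h5, typ_half (by linarith) (by linarith), h4]
      rw [h3] at h2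
      exact tendsto_nhds_unique h1 h2
    refine lt_of_lt_of_le ?_ (measure_mono hsub)
    rw [Real.volume_Ioc]
    apply ENNReal.ofReal_pos.2
    linarith
  refine ⟨L, hL, hpos, ?_⟩
  intro F hF hnull hfin
  have hinf : (Set.range (fun d : ℕ => (1:ℝ) / ((d:ℝ) + 1))).Infinite := by
    apply Set.infinite_range_of_injective
    intro a b hab
    have hab' : (1:ℝ) / ((a:ℝ) + 1) = 1 / ((b:ℝ) + 1) := hab
    rw [one_div, one_div, inv_inj] at hab'
    have : (a:ℝ) = b := by linarith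
    exact_mod_cast this
  apply hinf
  apply hfin.subset
  rintro _ ⟨d, rfl⟩
  by_contra hcon
  have hz : volume {p : ℝ | p ∈ Set.Icc (0:ℝ) 1 ∧ L p = 1 / ((d + 1 : ℕ) : ℝ)} = 0 := by
    apply measure_mono_null _ hnull
    rintro p ⟨hp, hLp⟩
    refine ⟨hp, fun hpF => hcon ⟨p, hpF, ?_⟩⟩
    rw [hLp]; push_cast; rfl
  exact (hpos (d + 1) (Nat.succ_pos d)).ne' hz

end Pool.Agent.Results.MP_8df504_an.InfinitelyManyValues
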